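import Pool.Agent.H46.CH.DU

/-!
# TUB: trees come from generated structures
-/

set_option autoImplicit false

namespace Pool.Agent.H11.CHD

open Classical Pool.Agent.H8.VR Pool.Agent.H69.VR Pool.Agent.H46.CH
open Pool.Agent.H8.JS (NTM Cfg Mv lang num)

section

variable {N Q L T O C : Type}

/-- generated sets are nonempty -/
theorem gen_ne {A : Type} {S : Sg N Q L T O} {lam : A → L} {th : A → A → T} {s : N} {X : Set A}
    {c : A → Q} (h : S.Gen lam th s X c) : X.Nonempty := by
  induction h with
  | pt s a c h => exact Set.singleton_nonempty a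
  | op o X Y c c₁ c₂ h₁ h₂ hd hg ha hX hY ih₁ ih₂ => exact ih₁.mono Set.subset_union_left

variable [Fintype Q] [Fintype L] [Fintype T] [Fintype C]

theorem rf_pos (hTT : T_TT) {S : Sg N Q L T O} {K : Cp C} {s : N} {c : Ix Q L T C → ℕ}
    (h : RF S K s c) : 0 < tot c := by
  obtain ⟨A, _, lam, th, X, col, -, hG, rfl⟩ := h
  rw [(hTT N Q L T O C S K).1 A lam th X X col]
  exact (Set.ncard_pos (Set.toFinite X)).2 (gen_ne hG)

/-- the claim for the states -/
def Cl (S : Sg N Q L T O) (K : Cp C) (Ok : St L T C → Prop) (s₀ : N) (n : ℕ) :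
    TSt N O → (VI Q L T C → ℕ) → Prop
  | .root, _ => ∃ c, RF S K s₀ c ∧ tot c = n ∧ ∀ σ : Ix Q L T C, c σ ≠ 0 → Ok σ.2
  | .F s, v => RF S K s (fun σ => v (.inl σ))
  | .J o, v => RJ S K o (fun σ => v (.inl σ)) (fun σ => v (.inr (.inl σ)))
      (fun σ => v (.inr (.inr σ)))
  | .B o, v => RF S K (S.s o) (fun σ => v (.inl σ)) ∧ RF S K (S.t o) (fun σ => v (.inr (.inl σ)))
  | .Lf o, v => RF S K (S.s o) (fun σ => v (.inl σ))
  | .Rt o, v => RF S K (S.t o) (fun σ => v (.inr (.inl σ)))
  | .fin, _ => True

theorem lt_of_tot {c : Ix Q L T C → ℕ} {M : ℕ} (h : tot c < M) : Lt M c := fun σ =>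
  lt_of_le_of_lt (Finset.single_le_sum (f := c) (fun _ _ => Nat.zero_le _)
    (Finset.mem_univ σ)) h

theorem lt_of_sum {ι : Type} [Fintype ι] {c : ι → ℕ} {M : ℕ} (h : ∑ i, c i < M) : Lt M c :=
  fun i => lt_of_le_of_lt (Finset.single_le_sum (f := c) (fun _ _ => Nat.zero_le _)
    (Finset.mem_univ i)) h

end

theorem pf_TUB (hRC : T_RC) (hTT : T_TT) : Pool.Agent.H46.CH.T_TUB := by
  intro N Q L T O C _ _ _ _ _ S K Ok s₀ M n hS v k h
  have key : ∀ (q : TSt N O) (v : VI Q L T C → ℕ) (k : ℕ), DTr S K Ok s₀ M n q v k →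
      Cl S K Ok s₀ n q v := by
    intro q v k h
    induction h with
    | fin v => exact trivial
    | st e v u v' k hb hu hv hP h ih =>
      cases e with
      | root => exact ⟨_, ih, hP.1, hP.2⟩
      | join o =>
        have hF := hP.1
        have hz := hP.2
        have h0 := (hRC N Q L T O C S K (tot (fun σ => v' (.inl σ)) +
          tot (fun σ => v' (.inr (.inl σ))) + tot (fun σ => v' (.inr (.inr σ))) +
          tot (fun σ => v (.inl σ)) + 1) 0).2.2.2
        exact h0 o (fun σ => v' (.inl σ)) (fun σ => v' (.inr (.inl σ)))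
          (fun σ => v' (.inr (.inr σ))) (fun σ => v (.inl σ)) (lt_of_tot (by omega))
          (lt_of_tot (by omega)) (lt_of_tot (by omega)) (lt_of_tot (by omega)) hz ih hF
      | step o τ =>
        have h0 := (hRC N Q L T O C S K (tot (fun σ => v' (.inl σ)) +
          tot (fun σ => v' (.inr (.inl σ))) + tot (fun σ => v' (.inr (.inr σ))) +
          tot (fun σ => v (.inl σ)) + tot (fun σ => v (.inr (.inl σ))) +
          tot (fun σ => v (.inr (.inr σ))) + ∑ p, u p + 1) 0).2.2.1
        exact h0 o τ u (fun σ => v' (.inl σ)) (fun σ => v' (.inr (.inl σ)))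
          (fun σ => v' (.inr (.inr σ))) (fun σ => v (.inl σ)) (fun σ => v (.inr (.inl σ)))
          (fun σ => v (.inr (.inr σ))) (lt_of_sum (by omega)) (lt_of_tot (by omega))
          (lt_of_tot (by omega)) (lt_of_tot (by omega)) (lt_of_tot (by omega))
          (lt_of_tot (by omega)) (lt_of_tot (by omega)) ih hP
      | split o =>
        have hz : ∀ σ : Ix Q L T C, v (.inr (.inr σ)) = 0 := hP.1
        have he : v' = v := funext hP.2
        rw [he] at ih
        obtain ⟨i1, i2⟩ := ih
        have h0 := (hRC N Q L T O C S K (tot (fun σ => v (.inl σ)) +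
          tot (fun σ => v (.inr (.inl σ))) + tot (fun σ => v (.inr (.inr σ))) + 1)
          (tot (fun σ => v (.inl σ)) + tot (fun σ => v (.inr (.inl σ))))).2.1
        rcases h0 o (fun σ => v (.inl σ)) (fun σ => v (.inr (.inl σ)))
          (fun σ => v (.inr (.inr σ))) (lt_of_tot (by omega)) (lt_of_tot (by omega))
          (lt_of_tot (by omega)) hz i1 i2 (rf_pos hTT i1) (rf_pos hTT i2) le_rfl with h1 | h1
        · exact absurd (hS o _ _ (rf_pos hTT i1) (rf_pos hTT i2)) h1
        · exact h1
      | left o =>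
        have he : (fun σ => v' (.inl σ)) = fun σ => v (.inl σ) := funext hP
        have h1 : RF S K (S.s o) (fun σ => v' (.inl σ)) := ih
        rw [he] at h1
        exact h1
      | right o =>
        have he : (fun σ => v' (.inl σ)) = fun σ => v (.inr (.inl σ)) := funext hP
        have h1 : RF S K (S.t o) (fun σ => v' (.inl σ)) := ih
        rw [he] at h1
        exact h1
      | leaf s =>
        exact (hRC N Q L T O C S K (tot (fun σ => v (.inl σ)) + 1) 0).1 s _
          (lt_of_tot (by omega)) hP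
    | all s a b v k₁ k₂ hb h₁ h₂ ih₁ ih₂ =>
      cases s with
      | B o =>
        have h1 : (some (TSt.Lf o, TSt.Rt o) : Option (TSt N O × TSt N O)) = some (a, b) := hb
        rw [Option.some.injEq, Prod.mk.injEq] at h1
        obtain ⟨rfl, rfl⟩ := h1
        exact ⟨ih₁, ih₂⟩
      | root => exact absurd hb (by simp [TSt.br])
      | F s => exact absurd hb (by simp [TSt.br])
      | J o => exact absurd hb (by simp [TSt.br])
      | Lf o => exact absurd hb (by simp [TSt.br])
      | Rt o => exact absurd hb (by simp [TSt.br])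
      | fin => exact absurd hb (by simp [TSt.br])
  exact key _ v k h

end Pool.Agent.H11.CHD
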